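import Pool.Agent.Y30.IE.Step

/-!
The intermediate exponents `ω_{n,d}`: the exact level sets, and their Hausdorff measure at the
critical dimension.
-/

set_option autoImplicit false

open Set MeasureTheory Metric
open scoped ENNReal

namespace Pool.Agent.Y30.IE

open Pool.Agent.H438R2 hiding count_mid count_big step_exists nest exists_radii exists_small_cover

/-- the points which have, for every `j`, an approximation of height at least `j` and of
exponent `vs j` -/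
def Ev (n r : ℕ) (vs : ℕ → ℝ) : Set (Fin n → ℝ) := {θ | ∀ j, θ ∈ Vt n r (vs j) j}

theorem crit_ball (n r : ℕ) (hr1 : 1 ≤ r) (hr : r ≤ n) (vs : ℕ → ℝ) (s : ℝ) (hs0 : 0 < s)
    (hv : ∀ j, ((n : ℝ) + 1) / ((n : ℝ) + 1 - r) < vs j) (hs1 : ((r - 1 : ℕ) : ℝ) ≤ s)
    (hs2 : ∀ j, s < ((r - 1 : ℕ) : ℝ) + (n + 1) / vs j) (x : Fin n → ℝ) (R : ℝ) (hR : 0 < R)
    (hRc : closedBall x R ⊆ cube n) :
    ENNReal.ofReal (1 / (8 * 64 ^ n) * R ^ s / 2) ≤ μH[s] (Ev n r vs ∩ closedBall x R) := by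
  classical
  have hκ1 : (1 : ℝ) / (8 * 64 ^ n) < 1 := by
    rw [div_lt_one (by positivity)]
    have : (1 : ℝ) ≤ 64 ^ n := one_le_pow₀ (by norm_num)
    linarith
  exact IE.nest (X := Fin n → ℝ) s (1 / (8 * 64 ^ n)) hs0 (by positivity) hκ1
    {b | 0 < b.2 ∧ closedBall b.1 b.2 ⊆ cube n} (fun j => Vt n r (vs j) j) (fun b hb => hb.1)
    (fun b hb j δ hδ => by
      obtain ⟨q, F, hq, hqδ, hF, hN, hG⟩ :=
        IE.step_exists n r hr1 hr (vs j) s (hv j) hs1 (hs2 j) b.1 b.2 hb.1 hb.2 j δ hδ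
      exact ⟨q, F, hq, hqδ, fun y hy => ⟨⟨hq, (hF y hy).1.trans hb.2⟩, (hF y hy).1, (hF y hy).2⟩,
        hN, hG⟩)
    (x, R) ⟨hR, hRc⟩

/-- the Hausdorff measure at the critical dimension is infinite -/
theorem crit_top (n r : ℕ) (hr1 : 1 ≤ r) (hr : r ≤ n) (vs : ℕ → ℝ) (s : ℝ) (hs0 : 0 < s)
    (hv : ∀ j, ((n : ℝ) + 1) / ((n : ℝ) + 1 - r) < vs j) (hs1 : ((r - 1 : ℕ) : ℝ) ≤ s)
    (hs2 : ∀ j, s < ((r - 1 : ℕ) : ℝ) + (n + 1) / vs j) (hsn : s < n) :
    μH[s] (cube n ∩ Ev n r vs) = ∞ := by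
  classical
  -- the lower bound for every `N`
  have key : ∀ N : ℕ, 1 ≤ N →
      ENNReal.ofReal (1 / (8 * 64 ^ n) * (1 / 4) ^ s / 2 * (N : ℝ) ^ ((n : ℝ) - s)) ≤
        μH[s] (cube n ∩ Ev n r vs) := by
    intro N hN
    have hN0 : (0 : ℝ) < N := by exact_mod_cast hN
    let c : (Fin n → Fin N) → (Fin n → ℝ) := fun k i => ((k i : ℕ) + 1 / 2) / (N : ℝ)
    have hR : (0 : ℝ) < 1 / (4 * N) := by positivity
    have hcube : ∀ k, closedBall (c k) (1 / (4 * N)) ⊆ cube n := by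
      intro k y hy i
      have h1 := (dist_le_pi_dist y (c k) i).trans hy
      rw [Real.dist_eq, abs_le] at h1
      have h2 : (((k i : ℕ) : ℝ)) + 1 ≤ N := by exact_mod_cast (k i).2
      have h3 : (0 : ℝ) ≤ ((k i : ℕ) : ℝ) := Nat.cast_nonneg _
      have e1 : c k i = ((k i : ℕ) + 1 / 2) / (N : ℝ) := rfl
      have e2 : 1 / (4 * (N : ℝ)) = (1 / 4) / N := by field_simp
      rw [e1, e2] at h1
      constructor
      · have : 0 ≤ (((k i : ℕ) : ℝ) + 1 / 2) / N - 1 / 4 / N := by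
          rw [← sub_div]; exact div_nonneg (by linarith) hN0.le
        linarith [h1.1]
      · have : (((k i : ℕ) : ℝ) + 1 / 2) / N + 1 / 4 / N ≤ 1 := by
          rw [← add_div, div_le_one hN0]; linarith
        linarith [h1.2]
    have hdisj : (↑(Finset.univ : Finset (Fin n → Fin N)) : Set (Fin n → Fin N)).PairwiseDisjoint
        (fun k => closedBall (c k) (1 / (4 * N))) := by
      intro k _ l _ hkl
      rw [Function.onFun, Set.disjoint_left]
      intro y hy hy'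
      apply hkl
      funext i
      have h1 := (dist_le_pi_dist y (c k) i).trans hy
      have h2 := (dist_le_pi_dist y (c l) i).trans hy'
      rw [Real.dist_eq, abs_le] at h1 h2
      have e1 : c k i = ((k i : ℕ) + 1 / 2) / (N : ℝ) := rfl
      have e3 : c l i = ((l i : ℕ) + 1 / 2) / (N : ℝ) := rfl
      have e2 : 1 / (4 * (N : ℝ)) = (1 / 4) / N := by field_simp
      rw [e1, e2] at h1
      rw [e3, e2] at h2
      have h3 : (((k i : ℕ) : ℝ) + 1 / 2) / N - (((l i : ℕ) : ℝ) + 1 / 2) / N ≤ 1 / 2 / N := by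
        have : (1 : ℝ) / 2 / N = 1 / 4 / N + 1 / 4 / N := by ring
        linarith [h1.1, h2.2]
      have h4 : (((l i : ℕ) : ℝ) + 1 / 2) / N - (((k i : ℕ) : ℝ) + 1 / 2) / N ≤ 1 / 2 / N := by
        have : (1 : ℝ) / 2 / N = 1 / 4 / N + 1 / 4 / N := by ring
        linarith [h1.2, h2.1]
      rw [← sub_div, div_le_div_iff_of_pos_right hN0] at h3 h4
      have h5 : ((k i : ℕ) : ℝ) < ((l i : ℕ) : ℝ) + 1 := by linarith
      have h6 : ((l i : ℕ) : ℝ) < ((k i : ℕ) : ℝ) + 1 := by linarith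
      have h7 : (k i : ℕ) < (l i : ℕ) + 1 := by exact_mod_cast h5
      have h8 : (l i : ℕ) < (k i : ℕ) + 1 := by exact_mod_cast h6
      exact Fin.ext (by omega)
    have hsum : ∑ k : Fin n → Fin N, μH[s] (Ev n r vs ∩ closedBall (c k) (1 / (4 * N))) ≤
        μH[s] (cube n ∩ Ev n r vs) := by
      have h1 : ∀ k : Fin n → Fin N, μH[s] (Ev n r vs ∩ closedBall (c k) (1 / (4 * N))) =
          (μH[s].restrict (Ev n r vs)) (closedBall (c k) (1 / (4 * N))) := by
        intro k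
        rw [Measure.restrict_apply isClosed_closedBall.measurableSet, inter_comm]
      rw [Finset.sum_congr rfl (fun k _ => h1 k),
        ← measure_biUnion_finset hdisj (fun k _ => isClosed_closedBall.measurableSet),
        Measure.restrict_apply (Finset.measurableSet_biUnion _
          (fun k _ => isClosed_closedBall.measurableSet))]
      refine measure_mono ?_
      rintro y ⟨hy, hyE⟩
      obtain ⟨k, _, hk⟩ := mem_iUnion₂.1 hy
      exact ⟨hcube k hk, hyE⟩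
    refine le_trans ?_ hsum
    have hterm : ∀ k : Fin n → Fin N,
        ENNReal.ofReal (1 / (8 * 64 ^ n) * (1 / (4 * (N : ℝ))) ^ s / 2) ≤
          μH[s] (Ev n r vs ∩ closedBall (c k) (1 / (4 * N))) := fun k =>
      crit_ball n r hr1 hr vs s hs0 hv hs1 hs2 (c k) (1 / (4 * N)) hR (hcube k)
    refine le_trans ?_ (Finset.sum_le_sum (fun k _ => hterm k))
    rw [Finset.sum_const, Finset.card_univ, Fintype.card_fun, Fintype.card_fin, Fintype.card_fin,
      nsmul_eq_mul, ← ENNReal.ofReal_natCast, ← ENNReal.ofReal_mul (by positivity)]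
    refine ENNReal.ofReal_le_ofReal (le_of_eq ?_)
    have h1 : (1 / (4 * (N : ℝ))) ^ s = (1 / 4) ^ s * (N : ℝ) ^ (-s) := by
      rw [show 1 / (4 * (N : ℝ)) = (1 / 4) * (N : ℝ)⁻¹ by field_simp,
        Real.mul_rpow (by norm_num) (by positivity), Real.inv_rpow hN0.le, Real.rpow_neg hN0.le]
    rw [h1, sub_eq_add_neg, Real.rpow_add hN0, Real.rpow_natCast]
    push_cast
    ring
  refine ENNReal.eq_top_of_forall_nnreal_le (fun M => ?_)
  have hlim : Filter.Tendsto (fun N : ℕ => 1 / (8 * 64 ^ n) * (1 / 4) ^ s / 2 *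
      (N : ℝ) ^ ((n : ℝ) - s)) Filter.atTop Filter.atTop := by
    refine Filter.Tendsto.const_mul_atTop (by positivity) ?_
    exact (tendsto_rpow_atTop (by linarith : 0 < (n : ℝ) - s)).comp tendsto_natCast_atTop_atTop
  obtain ⟨N, hN1, hN2⟩ := ((hlim.eventually_ge_atTop (M : ℝ)).and
    (Filter.eventually_ge_atTop 1)).exists
  refine le_trans ?_ (key N hN2)
  rw [← ENNReal.ofReal_coe_nnreal]
  exact ENNReal.ofReal_le_ofReal hN1

/-- a lower bound for the exponent of the points of `Ev` in the cube -/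
theorem ev_le (n d : ℕ) (vs : ℕ → ℝ) (hmono : Monotone vs) (c' : ℝ) (j0 : ℕ)
    (hj0 : c' + 1 < vs j0) (θ : Fin n → ℝ) (hθ : θ ∈ cube n)
    (hE : θ ∈ Ev n (d + 1) vs) : (c' : EReal) ≤ omegaExp n d θ := by
  refine ws_to_omega c' (vs j0) (by linarith) θ hθ ?_
  intro hfin
  have hB : ∃ H : ℕ, ∀ L ∈ {L : Submodule ℝ (Fin (n + 1) → ℝ) |
      ∃ p : (Fin (d + 1) → Fin (n + 1)) → ℤ, IsPP L p ∧ ∃ P ∈ L, P 0 = 1 ∧
        ∀ i : Fin n, |P i.succ - θ i| ≤ 1 * (ht p : ℝ) ^ (-(vs j0))},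
      ∀ p : (Fin (d + 1) → Fin (n + 1)) → ℤ, IsPP L p → ht p ≤ H := by
    have h1 : ∀ L ∈ {L : Submodule ℝ (Fin (n + 1) → ℝ) |
      ∃ p : (Fin (d + 1) → Fin (n + 1)) → ℤ, IsPP L p ∧ ∃ P ∈ L, P 0 = 1 ∧
        ∀ i : Fin n, |P i.succ - θ i| ≤ 1 * (ht p : ℝ) ^ (-(vs j0))},
      ∃ H : ℕ, ∀ p : (Fin (d + 1) → Fin (n + 1)) → ℤ, IsPP L p → ht p ≤ H := by
      rintro L ⟨p, hp, _⟩
      exact ⟨ht p, fun p' hp' => (hp'.ht_eq hp).le⟩
    choose! h hh using h1
    obtain ⟨H, hH⟩ := (hfin.image h).bddAbove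
    exact ⟨H, fun L hL p hp => (hh L hL p hp).trans (hH ⟨L, hL, rfl⟩)⟩
  obtain ⟨H, hH⟩ := hB
  obtain ⟨L, p, hp, hpH, P, hP, hP0, hPθ⟩ := hE (max j0 (H + 1))
  have hht1 : (1 : ℝ) ≤ ht p := by exact_mod_cast hp.ht_pos
  have h2 := hH L ⟨p, hp, P, hP, hP0, fun i => by
    rw [one_mul]
    refine (hPθ i).trans (Real.rpow_le_rpow_of_exponent_le hht1 ?_)
    have := hmono (le_max_left j0 (H + 1))
    linarith⟩ p hp
  have h3 := le_max_right j0 (H + 1)
  omega

/-- the points of `Ev` in the cube have exponent at least `w` -/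
theorem ev_sub (n d : ℕ) (w : ℝ) (vs : ℕ → ℝ) (hmono : Monotone vs)
    (hlim : ∀ c : ℝ, c < w + 1 → ∃ j, c < vs j) (θ : Fin n → ℝ) (hθ : θ ∈ cube n)
    (hE : θ ∈ Ev n (d + 1) vs) : (w : EReal) ≤ omegaExp n d θ := by
  refine le_of_forall_lt (fun c hc => ?_)
  obtain ⟨c', hc1, hc2⟩ := EReal.lt_iff_exists_real_btwn.1 hc
  have hc3 : c' < w := by exact_mod_cast hc2
  obtain ⟨j0, hj0⟩ := hlim (c' + 1) (by linarith)
  exact lt_of_lt_of_le hc1 (ev_le n d vs hmono c' j0 hj0 θ hθ hE)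

/-- for the maximum norm: the set `{ω_{n,d} = ∞}` has infinite Hausdorff measure in dimension
`d ≥ 1`, already in the unit cube -/
theorem level_inf (n d : ℕ) (hd0 : 0 < d) (hd : d < n) :
    μH[(d : ℝ)] {θ : Fin n → ℝ | θ ∈ cube n ∧ omegaExp n d θ = ⊤} = ∞ := by
  have hnd : (0 : ℝ) < (n : ℝ) - d := by
    have : (d : ℝ) < n := by exact_mod_cast hd
    linarith
  have hd1 : ((d + 1 - 1 : ℕ) : ℝ) = d := by simp
  have hd2 : (n : ℝ) + 1 - ((d + 1 : ℕ) : ℝ) = (n : ℝ) - d := by push_cast; ring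
  have hd3 : (0 : ℝ) < d := by exact_mod_cast hd0
  obtain ⟨vs, hvs⟩ : ∃ vs : ℕ → ℝ, vs = fun j : ℕ =>
    ((n : ℝ) + 1) / ((n : ℝ) - d) + 1 + (j : ℝ) := ⟨_, rfl⟩
  have hv0 : 0 < ((n : ℝ) + 1) / ((n : ℝ) - d) := by positivity
  have hvj : ∀ j, ((n : ℝ) + 1) / ((n : ℝ) - d) < vs j := by
    intro j
    rw [hvs]
    have : (0 : ℝ) ≤ j := Nat.cast_nonneg _
    simp only
    linarith
  have hmono : Monotone vs := by
    intro a b hab
    rw [hvs]
    simp only
    have : (a : ℝ) ≤ b := by exact_mod_cast hab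
    linarith
  have htop := crit_top n (d + 1) (by omega) (by omega) vs d hd3
    (fun j => by rw [hd2]; exact hvj j) (by rw [hd1])
    (fun j => by
      rw [hd1]
      have h1 : 0 < ((n : ℝ) + 1) / vs j := div_pos (by positivity) (hv0.trans (hvj j))
      linarith) (by exact_mod_cast hd)
  refine top_le_iff.1 (htop.symm.le.trans (measure_mono ?_))
  rintro θ ⟨hθ, hE⟩
  refine ⟨hθ, ?_⟩
  rw [EReal.eq_top_iff_forall_lt]
  intro c
  obtain ⟨j0, hj0⟩ := exists_nat_gt (c + 2)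
  have h1 : c + 1 + 1 < vs j0 := by
    rw [hvs]
    simp only
    linarith
  refine lt_of_lt_of_le ?_ (ev_le n d vs hmono (c + 1) j0 h1 θ hθ hE)
  exact_mod_cast (by linarith : c < c + 1)

/-- for the maximum norm: the level set `{ω_{n,d} = w}` has infinite Hausdorff measure at the
critical dimension, already in the unit cube -/
theorem level_top (n d : ℕ) (hd : d < n) (w : ℝ) (hw : ((d : ℝ) + 1) / ((n : ℝ) - d) < w) :
    μH[(d : ℝ) + ((n : ℝ) + 1) / (w + 1)]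
      {θ : Fin n → ℝ | θ ∈ cube n ∧ omegaExp n d θ = (w : EReal)} = ∞ := by
  have hnd : (0 : ℝ) < (n : ℝ) - d := by
    have : (d : ℝ) < n := by exact_mod_cast hd
    linarith
  have hw0 : 0 < w := lt_of_le_of_lt (by positivity) hw
  have hd1 : ((d + 1 - 1 : ℕ) : ℝ) = d := by simp
  have hd2 : (n : ℝ) + 1 - ((d + 1 : ℕ) : ℝ) = (n : ℝ) - d := by push_cast; ring
  obtain ⟨s, hs⟩ : ∃ s : ℝ, s = (d : ℝ) + ((n : ℝ) + 1) / (w + 1) := ⟨_, rfl⟩
  rw [← hs]
  have hnw : ((n : ℝ) + 1) / ((n : ℝ) - d) < w + 1 := by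
    rw [div_lt_iff₀ hnd] at hw ⊢
    nlinarith
  obtain ⟨η, hη⟩ : ∃ η : ℝ, η = (w + 1 - ((n : ℝ) + 1) / ((n : ℝ) - d)) / 2 := ⟨_, rfl⟩
  have hη0 : 0 < η := by rw [hη]; linarith
  obtain ⟨vs, hvs⟩ : ∃ vs : ℕ → ℝ, vs = fun j : ℕ => w + 1 - η / ((j : ℝ) + 1) := ⟨_, rfl⟩
  have hvj : ∀ j, ((n : ℝ) + 1) / ((n : ℝ) - d) < vs j ∧ vs j < w + 1 := by
    intro j
    have hj : (0 : ℝ) < (j : ℝ) + 1 := by positivity
    have h1 : η / ((j : ℝ) + 1) ≤ η := div_le_self hη0.le (by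
      have : (0 : ℝ) ≤ j := Nat.cast_nonneg _
      linarith)
    have h2 : 0 < η / ((j : ℝ) + 1) := by positivity
    rw [hvs]
    constructor
    · simp only
      linarith
    · simp only
      linarith
  have hvpos : ∀ j, 0 < vs j := fun j => lt_trans (by positivity) (hvj j).1
  have hmono : Monotone vs := by
    intro a b hab
    rw [hvs]
    simp only
    have h1 : (a : ℝ) + 1 ≤ (b : ℝ) + 1 := by
      have : (a : ℝ) ≤ b := by exact_mod_cast hab
      linarith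
    have : η / ((b : ℝ) + 1) ≤ η / ((a : ℝ) + 1) := by gcongr
    linarith
  have hlim : ∀ c : ℝ, c < w + 1 → ∃ j, c < vs j := by
    intro c hc
    obtain ⟨j, hj⟩ := exists_nat_gt (η / (w + 1 - c))
    have h0 : 0 < w + 1 - c := by linarith
    refine ⟨j, ?_⟩
    rw [hvs]
    simp only
    rw [div_lt_iff₀ h0] at hj
    have h1 : η / ((j : ℝ) + 1) < w + 1 - c := by
      rw [div_lt_iff₀ (by positivity)]
      nlinarith
    linarith
  have hsd : (d : ℝ) < s := by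
    have : 0 < ((n : ℝ) + 1) / (w + 1) := by positivity
    linarith
  have hsn : s < n := by
    have h1 : ((n : ℝ) + 1) / (w + 1) < (n : ℝ) - d := by
      rw [div_lt_iff₀ (by linarith)]
      rw [div_lt_iff₀ hnd] at hnw
      linarith
    linarith
  have htop := crit_top n (d + 1) (by omega) (by omega) vs s
    (lt_of_le_of_lt (Nat.cast_nonneg _) hsd)
    (fun j => by rw [hd2]; exact (hvj j).1) (by rw [hd1]; exact hsd.le)
    (fun j => by
      rw [hd1, hs]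
      have h1 : ((n : ℝ) + 1) / (w + 1) < ((n : ℝ) + 1) / vs j := by
        have := (hvj j).2
        have h3 := hvpos j
        gcongr
      linarith) hsn
  -- larger exponents have measure zero
  have hzero : ∀ m : ℕ, μH[s] {θ : Fin n → ℝ | ((w + 1 / ((m : ℝ) + 1) : ℝ) : EReal) ≤
      omegaExp n d θ} = 0 := by
    intro m
    have hm : (0 : ℝ) < 1 / ((m : ℝ) + 1) := by positivity
    have h1 := dim_pi n d hd (w + 1 / ((m : ℝ) + 1)) (by linarith)
    have hs0 : 0 ≤ s := le_trans (Nat.cast_nonneg _) hsd.le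
    have h2 : dimH {θ : Fin n → ℝ | ((w + 1 / ((m : ℝ) + 1) : ℝ) : EReal) ≤ omegaExp n d θ} <
        ((Real.toNNReal s : NNReal) : ℝ≥0∞) := by
      rw [h1]
      change ENNReal.ofReal _ < ENNReal.ofReal s
      rw [ENNReal.ofReal_lt_ofReal_iff_of_nonneg (by positivity), hs]
      have h3 : ((n : ℝ) + 1) / (w + 1 / ((m : ℝ) + 1) + 1) < ((n : ℝ) + 1) / (w + 1) := by
        gcongr
        linarith
      linarith
    have h3 := hausdorffMeasure_of_dimH_lt h2
    rwa [Real.coe_toNNReal s hs0] at h3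
  have hcov : cube n ∩ Ev n (d + 1) vs ⊆
      {θ : Fin n → ℝ | θ ∈ cube n ∧ omegaExp n d θ = (w : EReal)} ∪
      ⋃ m : ℕ, {θ : Fin n → ℝ | ((w + 1 / ((m : ℝ) + 1) : ℝ) : EReal) ≤ omegaExp n d θ} := by
    rintro θ ⟨hθ, hE⟩
    have h1 := ev_sub n d w vs hmono hlim θ hθ hE
    rcases h1.eq_or_lt with h2 | h2
    · exact Or.inl ⟨hθ, h2.symm⟩
    · right
      obtain ⟨c, hc1, hc2⟩ := EReal.lt_iff_exists_real_btwn.1 h2
      have hc3 : w < c := by exact_mod_cast hc1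
      obtain ⟨m, hm⟩ := exists_nat_one_div_lt (sub_pos.2 hc3)
      rw [mem_iUnion]
      refine ⟨m, le_trans ?_ hc2.le⟩
      exact_mod_cast (by linarith : w + 1 / ((m : ℝ) + 1) ≤ c)
  have h1 := (measure_mono (μ := μH[s]) hcov).trans (measure_union_le _ _)
  rw [htop, measure_iUnion_null hzero, add_zero] at h1
  exact top_le_iff.1 h1

end Pool.Agent.Y30.IE
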