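import Mathlib

/-!
The covering lemma of `Pool.Agent.H438R2.Nest` with a lower bound for the Hausdorff measure (there:
the measure is not zero). The proof is the one of that file.
-/

set_option autoImplicit false

open MeasureTheory Set Metric
open scoped ENNReal

namespace Pool.Agent.Y30.IE

theorem exists_small_cover {X : Type*} [EMetricSpace X] [MeasurableSpace X] [BorelSpace X]
    {A : Set X} {s : ℝ} {r ε : ℝ≥0∞} (h0 : μH[s] A < ε) (hr : 0 < r) :
    ∃ t : ℕ → Set X, A ⊆ ⋃ n, t n ∧ (∀ n, ediam (t n) ≤ r) ∧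
      ∑' n, (⨆ _ : (t n).Nonempty, ediam (t n) ^ s) < ε := by
  rw [Measure.hausdorffMeasure_apply] at h0
  have h1 : (⨅ (t : ℕ → Set X) (_ : A ⊆ ⋃ n, t n) (_ : ∀ n, ediam (t n) ≤ r),
          ∑' n, ⨆ _ : (t n).Nonempty, ediam (t n) ^ s) < ε := by
    refine lt_of_le_of_lt ?_ h0
    exact le_iSup₂ (f := fun (r : ℝ≥0∞) (_ : 0 < r) =>
      ⨅ (t : ℕ → Set X) (_ : A ⊆ ⋃ n, t n) (_ : ∀ n, ediam (t n) ≤ r),
          ∑' n, ⨆ _ : (t n).Nonempty, ediam (t n) ^ s) r hr
  simp only [iInf_lt_iff] at h1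
  obtain ⟨t, ht1, ht2, ht3⟩ := h1
  exact ⟨t, ht1, ht2, ht3⟩

/-- Real radii for a small cover. -/
theorem exists_radii {X : Type*} [MetricSpace X] [MeasurableSpace X] [BorelSpace X]
    {A : Set X} {s : ℝ} (hs : 0 < s) {ε : ℝ} (hε : 0 < ε)
    (h0 : μH[s] A < ENNReal.ofReal (ε / 2)) :
    ∃ (t : ℕ → Set X) (u : ℕ → ℝ), A ⊆ ⋃ n, t n ∧ (∀ n, 0 < u n) ∧
      (∀ n, ∀ x ∈ t n, ∀ y ∈ t n, dist x y ≤ u n) ∧ ∑' n, ENNReal.ofReal (u n ^ s) ≤ ENNReal.ofReal ε := by
  obtain ⟨t, ht1, _, ht3⟩ := exists_small_cover (r := 1) h0 one_pos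
  obtain ⟨e, he1, he2⟩ := ENNReal.exists_pos_sum_of_countable (ι := ℕ)
    (ε := ENNReal.ofReal (ε / 2)) (by simpa using hε)
  set a : ℕ → ℝ≥0∞ := fun n => ⨆ _ : (t n).Nonempty, ediam (t n) ^ s with ha
  have hatop : ∀ n, a n ≠ ∞ := by
    intro n
    have h1 : a n ≤ ∑' n, a n := ENNReal.le_tsum n
    exact ne_top_of_lt (h1.trans_lt ht3)
  refine ⟨t, fun n => ((a n).toReal + e n) ^ (1 / s), ht1, ?_, ?_, ?_⟩
  · intro n
    have h1 : (0 : ℝ) < e n := by exact_mod_cast he1 n
    have h2 : (0 : ℝ) ≤ (a n).toReal := ENNReal.toReal_nonneg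
    positivity
  · intro n x hx y hy
    have h1 : a n = ediam (t n) ^ s := by
      rw [ha]; exact ciSup_pos ⟨x, hx⟩
    have h2 : edist x y ^ s ≤ a n := by
      rw [h1]
      exact ENNReal.rpow_le_rpow (edist_le_ediam_of_mem hx hy) hs.le
    have h3 : dist x y ^ s ≤ (a n).toReal := by
      have h4 := ENNReal.toReal_mono (hatop n) h2
      rw [← ENNReal.toReal_rpow, edist_dist, ENNReal.toReal_ofReal dist_nonneg] at h4
      exact h4
    have h4 : dist x y ^ s ≤ (a n).toReal + e n := by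
      have h5 : (0 : ℝ) ≤ e n := NNReal.coe_nonneg _
      linarith
    calc dist x y = (dist x y ^ s) ^ (1 / s) := by
          rw [← Real.rpow_mul dist_nonneg, mul_one_div_cancel hs.ne', Real.rpow_one]
      _ ≤ _ := Real.rpow_le_rpow (by positivity) h4 (by positivity)
  · have h1 : ∀ n, ENNReal.ofReal ((((a n).toReal + e n) ^ (1 / s)) ^ s) = a n + e n := by
      intro n
      have h2 : (0 : ℝ) ≤ (a n).toReal := ENNReal.toReal_nonneg
      have h3 : (0 : ℝ) ≤ e n := NNReal.coe_nonneg _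
      rw [← Real.rpow_mul (by positivity), one_div_mul_cancel hs.ne', Real.rpow_one,
        ENNReal.ofReal_add h2 h3, ENNReal.ofReal_toReal (hatop n), ENNReal.ofReal_coe_nnreal]
    simp_rw [h1]
    rw [ENNReal.tsum_add]
    calc ∑' n, a n + ∑' n, (e n : ℝ≥0∞) ≤ ENNReal.ofReal (ε / 2) + ENNReal.ofReal (ε / 2) :=
          add_le_add ht3.le he2.le
      _ = ENNReal.ofReal ε := by rw [← ENNReal.ofReal_add (by positivity) (by positivity), add_halves]

theorem nest {X : Type*} [MetricSpace X] [ProperSpace X] [MeasurableSpace X] [BorelSpace X]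
    (s κ : ℝ) (hs : 0 < s) (hκ : 0 < κ) (hκ1 : κ < 1)
    (Rg : Set (X × ℝ)) (V : ℕ → Set X) (hRpos : ∀ b ∈ Rg, 0 < b.2)
    (step : ∀ b ∈ Rg, ∀ (j : ℕ) (δ : ℝ), 0 < δ → ∃ (r : ℝ) (F : Finset X), 0 < r ∧ r ≤ δ ∧
      (∀ y ∈ F, (y, r) ∈ Rg ∧ closedBall y r ⊆ closedBall b.1 b.2 ∧ closedBall y r ⊆ V j) ∧
      4 * (b.2 / r) ^ s ≤ F.card ∧
      ∀ (U : Set X) (u : ℝ), 0 < u → (∀ x ∈ U, ∀ y ∈ U, dist x y ≤ u) →
        ∀ (G : Finset X), G ⊆ F → (∀ y ∈ G, (U ∩ closedBall y r).Nonempty) →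
          (u < r → G.card ≤ 1) ∧
          (r ≤ u → u ≤ b.2 → (G.card : ℝ) ≤ F.card / (4 * κ) * (u / b.2) ^ s))
    (b0 : X × ℝ) (hb0 : b0 ∈ Rg) :
    ENNReal.ofReal (κ * b0.2 ^ s / 2) ≤ μH[s] ({x | ∀ j, x ∈ V j} ∩ closedBall b0.1 b0.2) := by
  classical
  by_contra h0
  push Not at h0
  have hR0 := hRpos b0 hb0
  obtain ⟨t, u, hcov, hu, htu, hsum⟩ := exists_radii hs (ε := κ * b0.2 ^ s) (by positivity) h0
  obtain ⟨W, hW⟩ : ∃ W : X × ℝ → ℝ≥0∞, W = fun b => ∑' i, if (t i ∩ closedBall b.1 b.2).Nonempty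
    then ENNReal.ofReal (u i ^ s) else 0 := ⟨_, rfl⟩
  have hW0 : W b0 ≤ ENNReal.ofReal (κ * b0.2 ^ s) := by
    rw [hW]
    refine le_trans (ENNReal.tsum_le_tsum (fun i => ?_)) hsum
    split_ifs
    · exact le_rfl
    · exact zero_le
  have hstep : ∀ (k : ℕ) (b : {b : X × ℝ // b ∈ Rg ∧ W b ≤ ENNReal.ofReal (κ * b.2 ^ s)}),
      ∃ b' : {b : X × ℝ // b ∈ Rg ∧ W b ≤ ENNReal.ofReal (κ * b.2 ^ s)},
        closedBall b'.1.1 b'.1.2 ⊆ closedBall b.1.1 b.1.2 ∧ closedBall b'.1.1 b'.1.2 ⊆ V k ∧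
        ∀ i ≤ k, ¬ (t i ∩ closedBall b'.1.1 b'.1.2).Nonempty := by
    rintro k ⟨b, hb, hWb⟩
    have hR := hRpos b hb
    -- choose `δ`
    obtain ⟨δ, hδ, hδu⟩ : ∃ δ : ℝ, 0 < δ ∧ ∀ i ≤ k, δ ≤ u i := by
      obtain ⟨i0, _, hi0⟩ := (Finset.range (k + 1)).exists_min_image u ⟨0, by simp⟩
      exact ⟨u i0, hu i0, fun i hi => hi0 i (Finset.mem_range.2 (by omega))⟩
    obtain ⟨r, F, hr, hrδ, hF, hN, hG⟩ := step b hb k δ hδ
    have hNpos : (0 : ℝ) < F.card := lt_of_lt_of_le (by positivity) hN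
    -- the sum
    obtain ⟨w, hw⟩ : ∃ w : ℕ → ℝ, w = fun i => if r ≤ u i then 1 else u i ^ s / (κ * r ^ s) := ⟨_, rfl⟩
    have hw0 : ∀ i, 0 ≤ w i := by
      intro i; rw [hw]; have := hu i; dsimp only; split_ifs <;> positivity
    by_contra hcon
    push Not at hcon
    have hbad : ∀ y ∈ F, (1 : ℝ≥0∞) ≤ ∑' i, if (t i ∩ closedBall y r).Nonempty
        then ENNReal.ofReal (w i) else 0 := by
      intro y hy
      by_cases h1 : ∃ i, r ≤ u i ∧ (t i ∩ closedBall y r).Nonempty
      · obtain ⟨i, hi1, hi2⟩ := h1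
        refine le_trans ?_ (ENNReal.le_tsum i)
        rw [if_pos hi2, hw]
        simp [hi1]
      · push Not at h1
        have h2 : ¬ W (y, r) ≤ ENNReal.ofReal (κ * r ^ s) := by
          intro h3
          obtain ⟨i, hi, hi2⟩ := hcon ⟨(y, r), (hF y hy).1, h3⟩ (hF y hy).2.1 (hF y hy).2.2
          have h4 := h1 i (hrδ.trans (hδu i hi))
          rw [Set.nonempty_iff_ne_empty] at hi2
          exact hi2 h4
        push Not at h2
        have h3 : W (y, r) = ENNReal.ofReal (κ * r ^ s) * ∑' i, if (t i ∩ closedBall y r).Nonempty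
            then ENNReal.ofReal (w i) else 0 := by
          rw [hW, ← ENNReal.tsum_mul_left]
          refine tsum_congr (fun i => ?_)
          by_cases h4 : (t i ∩ closedBall y r).Nonempty
          · rw [if_pos h4, if_pos h4]
            have h5 : ¬ r ≤ u i := fun h6 => by
              have h7 := h1 i h6
              rw [Set.nonempty_iff_ne_empty] at h4
              exact h4 h7
            rw [← ENNReal.ofReal_mul (by positivity), hw]
            simp only [h5, if_false]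
            congr 1
            field_simp
          · rw [if_neg h4, if_neg h4, mul_zero]
        rw [h3] at h2
        by_contra h4
        push Not at h4
        have h5 : ENNReal.ofReal (κ * r ^ s) * (∑' i, if (t i ∩ closedBall y r).Nonempty
            then ENNReal.ofReal (w i) else 0) ≤ ENNReal.ofReal (κ * r ^ s) * 1 := by gcongr
        rw [mul_one] at h5
        exact absurd h2 (not_lt.2 h5)
    have hT : (F.card : ℝ≥0∞) ≤ ∑ y ∈ F, ∑' i, if (t i ∩ closedBall y r).Nonempty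
        then ENNReal.ofReal (w i) else 0 := by
      have h1 := Finset.card_nsmul_le_sum F _ _ hbad
      rwa [nsmul_eq_mul, mul_one] at h1
    rw [← (Summable.tsum_finsetSum (fun y _ => ENNReal.summable))] at hT
    have hterm : ∀ i, (∑ y ∈ F, if (t i ∩ closedBall y r).Nonempty
        then ENNReal.ofReal (w i) else 0) ≤ ENNReal.ofReal (F.card / (4 * κ * b.2 ^ s)) *
        (if (t i ∩ closedBall b.1 b.2).Nonempty then ENNReal.ofReal (u i ^ s) else 0) := by
      intro i
      by_cases h1 : (t i ∩ closedBall b.1 b.2).Nonempty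
      · rw [if_pos h1]
        -- `u i ≤ b.2`
        have h2 : u i ≤ b.2 := by
          have h3 : ENNReal.ofReal (u i ^ s) ≤ W b := by
            rw [hW]
            refine le_trans ?_ (ENNReal.le_tsum i)
            rw [if_pos h1]
          have h4 := h3.trans hWb
          rw [ENNReal.ofReal_le_ofReal_iff (by positivity)] at h4
          have h5 : u i ^ s ≤ b.2 ^ s := by
            have : 0 < b.2 ^ s := by positivity
            nlinarith
          exact (Real.rpow_le_rpow_iff (hu i).le hR.le hs).1 h5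
        rw [← Finset.sum_filter, Finset.sum_const, nsmul_eq_mul, ← ENNReal.ofReal_natCast,
          ← ENNReal.ofReal_mul (by positivity), ← ENNReal.ofReal_mul (by positivity)]
        refine ENNReal.ofReal_le_ofReal ?_
        obtain ⟨hg1, hg2⟩ := hG (t i) (u i) (hu i) (htu i) (F.filter (fun y => (t i ∩ closedBall y r).Nonempty))
          (Finset.filter_subset _ _) (fun y hy => (Finset.mem_filter.1 hy).2)
        by_cases h6 : r ≤ u i
        · have h7 := hg2 h6 h2
          rw [hw]; simp only [h6, if_true, mul_one]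
          refine h7.trans (le_of_eq ?_)
          rw [Real.div_rpow (hu i).le hR.le]
          field_simp
        · have h7 := hg1 (not_le.1 h6)
          have h7' : (((F.filter (fun y => (t i ∩ closedBall y r).Nonempty)).card : ℕ) : ℝ) ≤ 1 := by
            exact_mod_cast h7
          have hui := hu i
          have h8 : w i = u i ^ s / (κ * r ^ s) := by rw [hw]; simp only [h6, if_false]
          rw [h8]
          have h9 : 4 * (b.2 ^ s / r ^ s) ≤ F.card := by rwa [Real.div_rpow hR.le hr.le] at hN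
          have h10 : 0 < r ^ s := by positivity
          have h11 : 0 < b.2 ^ s := by positivity
          have h12 : 0 < u i ^ s := by positivity
          calc _ ≤ 1 * (u i ^ s / (κ * r ^ s)) := by gcongr
            _ = (4 * (b.2 ^ s / r ^ s)) / (4 * κ * b.2 ^ s) * u i ^ s := by field_simp
            _ ≤ _ := by gcongr
      · rw [if_neg h1, mul_zero]
        refine le_of_eq (Finset.sum_eq_zero (fun y hy => ?_))
        rw [if_neg]
        rintro ⟨z, hz1, hz2⟩
        exact h1 ⟨z, hz1, (hF y hy).2.1 hz2⟩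
    have hT2 := hT.trans (ENNReal.tsum_le_tsum hterm)
    rw [ENNReal.tsum_mul_left] at hT2
    have hT3 : (F.card : ℝ≥0∞) ≤ ENNReal.ofReal (F.card / (4 * κ * b.2 ^ s)) * ENNReal.ofReal (κ * b.2 ^ s) := by
      refine hT2.trans ?_
      have : W b = ∑' i, if (t i ∩ closedBall b.1 b.2).Nonempty
        then ENNReal.ofReal (u i ^ s) else 0 := by rw [hW]
      rw [← this]
      gcongr
    rw [← ENNReal.ofReal_mul (by positivity), ← ENNReal.ofReal_natCast,
      ENNReal.ofReal_le_ofReal_iff (by positivity)] at hT3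
    have h1 : (F.card : ℝ) / (4 * κ * b.2 ^ s) * (κ * b.2 ^ s) = F.card / 4 := by
      have : 0 < b.2 ^ s := by positivity
      field_simp
    rw [h1] at hT3
    linarith
  choose nx hnx1 hnx2 hnx3 using hstep
  let sq : ℕ → {b : X × ℝ // b ∈ Rg ∧ W b ≤ ENNReal.ofReal (κ * b.2 ^ s)} := fun k =>
    Nat.rec ⟨b0, hb0, hW0⟩ (fun k b => nx k b) k
  have hsq : ∀ k, sq (k + 1) = nx k (sq k) := fun k => rfl
  have hne : (⋂ k, closedBall (sq k).1.1 (sq k).1.2).Nonempty := by
    refine IsCompact.nonempty_iInter_of_sequence_nonempty_isCompact_isClosed _ ?_ ?_ ?_ ?_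
    · intro k; rw [hsq]; exact hnx1 k (sq k)
    · intro k
      refine ⟨(sq k).1.1, mem_closedBall_self ?_⟩
      exact (hRpos _ (sq k).2.1).le
    · exact isCompact_closedBall _ _
    · intro k; exact isClosed_closedBall
  obtain ⟨x, hx⟩ := hne
  rw [mem_iInter] at hx
  have hxE : x ∈ {x | ∀ j, x ∈ V j} ∩ closedBall b0.1 b0.2 := by
    refine ⟨fun j => ?_, hx 0⟩
    have := hx (j + 1)
    rw [hsq] at this
    exact hnx2 j _ this
  obtain ⟨i, hi⟩ := mem_iUnion.1 (hcov hxE)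
  have h1 := hx (i + 1)
  rw [hsq] at h1
  exact hnx3 i (sq i) i le_rfl ⟨x, hi, h1⟩

end Pool.Agent.Y30.IE
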