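import Pool.Agent.Y30.IE.Nest
import Pool.Agent.H438R2.Bridge

/-!
One step of the Cantor construction of `Pool.Agent.H438R2.Lower`, for `r - 1 ≤ s` in place of
`r - 1 < s`. The proof is the one of that file.
-/

set_option autoImplicit false

open Set Matrix MeasureTheory Metric
open scoped ENNReal

namespace Pool.Agent.Y30.IE

open Pool.Agent.H438R2 hiding count_mid count_big step_exists

/-- the count for intermediate sets -/
theorem count_mid (n r : ℕ) (hr : r - 1 ≤ n) (R q s u N : ℝ) (hR : 0 < R) (hq : 0 < q) (hqu : q ≤ u)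
    (hs : ((r - 1 : ℕ) : ℝ) ≤ s) (hN : 4 * (R / q) ^ s ≤ N) :
    (3 * (u / q)) ^ (r - 1) ≤ N / (4 * (1 / (8 * 64 ^ n))) * (u / R) ^ s := by
  have hu : 0 < u := lt_of_lt_of_le hq hqu
  have huq : 1 ≤ u / q := (one_le_div hq).2 hqu
  have h1 : N / (4 * (1 / (8 * 64 ^ n))) = N * (2 * 64 ^ n) := by field_simp; ring
  rw [h1, mul_pow]
  have h2 : (3 : ℝ) ^ (r - 1) ≤ 64 ^ n := by
    calc (3 : ℝ) ^ (r - 1) ≤ 3 ^ n := pow_le_pow_right₀ (by norm_num) hr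
      _ ≤ 64 ^ n := by gcongr; norm_num
  have h3 : (u / q) ^ (r - 1) ≤ (u / q) ^ s := by
    rw [← Real.rpow_natCast (u / q) (r - 1)]
    exact Real.rpow_le_rpow_of_exponent_le huq hs
  have h4 : (u / q) ^ s = (R / q) ^ s * (u / R) ^ s := by
    rw [← Real.mul_rpow (by positivity) (by positivity)]
    congr 1; field_simp
  have h5 : 0 < (u / R) ^ s := by positivity
  have h6 : 0 < (R / q) ^ s := by positivity
  calc (3 : ℝ) ^ (r - 1) * (u / q) ^ (r - 1) ≤ 64 ^ n * ((R / q) ^ s * (u / R) ^ s) := by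
        rw [← h4]; gcongr
    _ ≤ (4 * (R / q) ^ s) * (2 * 64 ^ n) * (u / R) ^ s := by
        have : 0 < 64 ^ n * ((R / q) ^ s * (u / R) ^ s) := by positivity
        nlinarith
    _ ≤ N * (2 * 64 ^ n) * (u / R) ^ s := by gcongr

/-- the count for large sets -/
theorem count_big (n r : ℕ) (R ρ s u N I Z : ℝ) (hR : 0 < R) (hρ : 0 < ρ) (hu : 0 < u) (huR : u ≤ R)
    (hs : s ≤ n) (hZ : 0 ≤ Z) (hI : R ^ n / (2 * (32 * ρ) ^ n) ≤ I) (hN : N = I * Z ^ (r - 1)) :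
    (2 * (u / ρ)) ^ n * Z ^ (r - 1) ≤ N / (4 * (1 / (8 * 64 ^ n))) * (u / R) ^ s := by
  have h1 : N / (4 * (1 / (8 * 64 ^ n))) = N * (2 * 64 ^ n) := by field_simp; ring
  rw [h1, hN]
  have h3 : (u / R) ^ n ≤ (u / R) ^ s := by
    rw [← Real.rpow_natCast (u / R) n]
    exact Real.rpow_le_rpow_of_exponent_ge (by positivity) ((div_le_one hR).2 huR) hs
  have h5 : 0 < (u / R) ^ s := by positivity
  have hI0 : 0 ≤ I := le_trans (by positivity) hI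
  calc (2 * (u / ρ)) ^ n * Z ^ (r - 1)
      = (R ^ n / (2 * (32 * ρ) ^ n)) * Z ^ (r - 1) * (2 * 64 ^ n) * (u / R) ^ n := by
        have h6 : (64 : ℝ) ^ n = 2 ^ n * 32 ^ n := by rw [← mul_pow]; norm_num
        rw [h6, mul_pow, mul_pow, div_pow, div_pow]
        field_simp
    _ ≤ I * Z ^ (r - 1) * (2 * 64 ^ n) * (u / R) ^ s := by gcongr

theorem step_exists (n r : ℕ) (hr1 : 1 ≤ r) (hr : r ≤ n) (v s : ℝ)
    (hv : ((n : ℝ) + 1) / ((n : ℝ) + 1 - r) < v) (hs1 : ((r - 1 : ℕ) : ℝ) ≤ s)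
    (hs2 : s < ((r - 1 : ℕ) : ℝ) + (n + 1) / v) (x : Fin n → ℝ) (R : ℝ) (hR : 0 < R)
    (hRc : closedBall x R ⊆ cube n) (j : ℕ) (δ : ℝ) (hδ : 0 < δ) :
    ∃ (q : ℝ) (F : Finset (Fin n → ℝ)), 0 < q ∧ q ≤ δ ∧
      (∀ y ∈ F, closedBall y q ⊆ closedBall x R ∧ closedBall y q ⊆ Vt n r v j) ∧
      4 * (R / q) ^ s ≤ F.card ∧
      ∀ (U : Set (Fin n → ℝ)) (u : ℝ), 0 < u → (∀ x ∈ U, ∀ y ∈ U, dist x y ≤ u) →
        ∀ (G : Finset (Fin n → ℝ)), G ⊆ F → (∀ y ∈ G, (U ∩ closedBall y q).Nonempty) →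
          (u < q → G.card ≤ 1) ∧
          (q ≤ u → u ≤ R → (G.card : ℝ) ≤ F.card / (4 * (1 / (8 * 64 ^ n))) * (u / R) ^ s) := by
  classical
  have hrn : (r : ℝ) ≤ n := by exact_mod_cast hr
  have hr1' : (1 : ℝ) ≤ r := by exact_mod_cast hr1
  have hn1 : 1 ≤ n := hr1.trans hr
  obtain ⟨m, hm⟩ : ∃ m : ℝ, m = (n : ℝ) + 1 - r := ⟨_, rfl⟩
  obtain ⟨d, hd⟩ : ∃ d : ℝ, d = ((r - 1 : ℕ) : ℝ) := ⟨_, rfl⟩
  have hdr : d = r - 1 := by rw [hd, Nat.cast_sub hr1]; push_cast; ring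
  have hm1 : 1 ≤ m := by linarith
  have hm0 : 0 < m := by linarith
  have hdm : d + m = n := by rw [hdr, hm]; ring
  rw [← hm] at hv
  rw [← hd] at hs1 hs2
  have hv0 : 0 < v := lt_of_le_of_lt (by positivity) hv
  have hmv : (n : ℝ) + 1 < m * v := by rw [div_lt_iff₀ hm0] at hv; linarith
  have hsd : (s - d) * v < n + 1 := by
    have : s - d < (n + 1) / v := by linarith
    rwa [lt_div_iff₀ hv0] at this
  have hsn : s ≤ n := by nlinarith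
  -- choose ε
  obtain ⟨Δ, hΔ⟩ : ∃ Δ : ℝ, Δ = m * ((n + 1) - (s - d) * v) := ⟨_, rfl⟩
  have hΔ0 : 0 < Δ := by rw [hΔ]; exact mul_pos hm0 (by linarith)
  obtain ⟨T, hT⟩ : ∃ T : ℝ, T = m + v * (s - d) := ⟨_, rfl⟩
  have hT0 : 0 < T := by rw [hT]; have := mul_nonneg hv0.le (sub_nonneg.2 hs1); linarith
  obtain ⟨ε, hε⟩ : ∃ ε : ℝ, ε = min (1 / 2) (Δ / (2 * T)) := ⟨_, rfl⟩
  have hε0 : 0 < ε := by rw [hε]; exact lt_min (by norm_num) (by positivity)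
  have hε1 : ε ≤ 1 / 2 := hε ▸ min_le_left _ _
  have hεT : ε * T ≤ Δ / 2 := by
    have h1 : ε ≤ Δ / (2 * T) := hε ▸ min_le_right _ _
    calc ε * T ≤ Δ / (2 * T) * T := by gcongr
      _ = Δ / 2 := by field_simp
  obtain ⟨χ, hχ⟩ : ∃ χ : ℝ, χ = Δ - ε * T := ⟨_, rfl⟩
  have hχ0 : 0 < χ := by rw [hχ]; linarith
  -- exponents
  obtain ⟨a, ha⟩ : ∃ a : ℝ, a = (n : ℝ) + 1 - ε := ⟨_, rfl⟩
  obtain ⟨b, hb⟩ : ∃ b : ℝ, b = (m + ε) * v := ⟨_, rfl⟩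
  have ha0 : 0 < a := by rw [ha]; have : (0 : ℝ) ≤ n := Nat.cast_nonneg n; linarith
  have hb0 : 0 < b := by rw [hb]; positivity
  have hba : 0 < b - a := by
    rw [hb, ha]
    have : 0 < ε * v := by positivity
    nlinarith
  obtain ⟨c, hc⟩ : ∃ c : ℝ, c = R ^ n / (2 * 32 ^ n) / (16 * (r : ℝ) ^ 2) ^ (r - 1) / (4 * R ^ s) := ⟨_, rfl⟩
  have hr0 : (0 : ℝ) < r := by linarith
  have hc0 : 0 < c := by rw [hc]; positivity
  -- choice of Y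
  have e1 := good_measure n r hr1 hr ε hε0 (by linarith) (R ^ n / 2) (by positivity)
  have e2 : ∀ᶠ Y : ℝ in Filter.atTop, Y ^ (-b) < δ := (tendsto_rpow_neg_atTop hb0).eventually (gt_mem_nhds hδ)
  have e3 : ∀ᶠ Y : ℝ in Filter.atTop, Y ^ (-a) < R / 6 :=
    (tendsto_rpow_neg_atTop ha0).eventually (gt_mem_nhds (by positivity))
  have e4 : ∀ᶠ Y : ℝ in Filter.atTop, (j : ℝ) < Y ^ (m - ε) :=
    (tendsto_rpow_atTop (by linarith : 0 < m - ε)).eventually_gt_atTop _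
  have e5 : ∀ᶠ Y : ℝ in Filter.atTop, 8 * (r : ℝ) ^ 2 < Y ^ (b - a) :=
    (tendsto_rpow_atTop hba).eventually_gt_atTop _
  have e6 : ∀ᶠ Y : ℝ in Filter.atTop, c⁻¹ < Y ^ χ :=
    (tendsto_rpow_atTop hχ0).eventually_gt_atTop _
  obtain ⟨Y, ⟨h1, h2, h3, h4, h5, h6, hY1⟩⟩ := (e1.and (e2.and (e3.and (e4.and (e5.and (e6.and
    (Filter.eventually_gt_atTop (1 : ℝ)))))))).exists
  have hY0 : 0 < Y := by linarith
  obtain ⟨ρ, hρ⟩ : ∃ ρ : ℝ, ρ = Y ^ (-a) := ⟨_, rfl⟩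
  obtain ⟨q, hq⟩ : ∃ q : ℝ, q = Y ^ (-b) := ⟨_, rfl⟩
  have hρ0 : 0 < ρ := by rw [hρ]; positivity
  have hq0 : 0 < q := by rw [hq]; positivity
  have hρq : ρ / q = Y ^ (b - a) := by
    rw [hρ, hq, ← Real.rpow_sub hY0]; congr 1; ring
  have hρq1 : 8 * (r : ℝ) ^ 2 < ρ / q := by rw [hρq]; exact h5
  have hρq2 : 8 * (r : ℝ) ^ 2 * q < ρ := by rwa [lt_div_iff₀ hq0] at hρq1
  have hqρ : q ≤ ρ := by
    have : (1 : ℝ) ≤ 8 * (r : ℝ) ^ 2 := by nlinarith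
    nlinarith
  obtain ⟨Z, hZ⟩ : ∃ Z : ℕ, Z = ⌊ρ / (8 * (r : ℝ) ^ 2 * q)⌋₊ := ⟨_, rfl⟩
  have h8 : 0 < 8 * (r : ℝ) ^ 2 * q := by positivity
  have hZ1 : (Z : ℝ) ≤ ρ / (8 * (r : ℝ) ^ 2 * q) := by rw [hZ]; exact Nat.floor_le (by positivity)
  have hZ2 : ρ / (16 * (r : ℝ) ^ 2 * q) ≤ Z := by
    have h9 := Nat.lt_floor_add_one (ρ / (8 * (r : ℝ) ^ 2 * q))
    rw [← hZ] at h9
    have h10 : 1 ≤ ρ / (8 * (r : ℝ) ^ 2 * q) := (one_le_div h8).2 hρq2.le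
    have h11 : (1 : ℝ) ≤ Z := by
      have : 1 ≤ Z := by rw [hZ]; exact Nat.le_floor (by exact_mod_cast h10)
      exact_mod_cast this
    have h12 : ρ / (16 * (r : ℝ) ^ 2 * q) = (ρ / (8 * (r : ℝ) ^ 2 * q)) / 2 := by field_simp; ring
    rw [h12]; linarith
  have hZρ : 8 * (r : ℝ) ^ 2 * q * Z ≤ ρ := by
    rw [le_div_iff₀ h8] at hZ1; linarith
  -- the volume
  have hvol : ENNReal.ofReal (R ^ n / 2) ≤ volume {θ ∈ closedBall x (R / 2) |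
      ∃ (L : Submodule ℝ (Fin (n + 1) → ℝ)) (p : (Fin r → Fin (n + 1)) → ℤ), IsPP L p ∧
      (Y ^ (m - ε) ≤ ht p ∧ (ht p : ℝ) ≤ Y ^ (m + ε)) ∧
      ∃ P ∈ L, P 0 = 1 ∧ ∀ i : Fin n, |P i.succ - θ i| ≤ ρ} := by
    have h9 : closedBall x (R / 2) ⊆ {θ ∈ closedBall x (R / 2) |
      ∃ (L : Submodule ℝ (Fin (n + 1) → ℝ)) (p : (Fin r → Fin (n + 1)) → ℤ), IsPP L p ∧
      (Y ^ (m - ε) ≤ ht p ∧ (ht p : ℝ) ≤ Y ^ (m + ε)) ∧
      ∃ P ∈ L, P 0 = 1 ∧ ∀ i : Fin n, |P i.succ - θ i| ≤ ρ} ∪ (cube n \ Gd n r ε Y) := by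
      intro θ hθ
      by_cases hG : θ ∈ Gd n r ε Y
      · left
        obtain ⟨L, p, hp, hp1, hp2, P, hP, hP0, hPθ⟩ := hG
        rw [← hm] at hp1 hp2
        refine ⟨hθ, L, p, hp, ⟨hp1, hp2⟩, P, hP, hP0, fun i => (hPθ i).trans (le_of_eq ?_)⟩
        rw [hρ, ha]; congr 1; ring
      · right
        exact ⟨hRc (closedBall_subset_closedBall (by linarith) hθ), hG⟩
    have h10 := (measure_mono (μ := volume) h9).trans (measure_union_le _ _)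
    rw [Real.volume_pi_closedBall x (by positivity), Fintype.card_fin] at h10
    have h11 : (2 * (R / 2)) ^ n = R ^ n / 2 + R ^ n / 2 := by
      rw [mul_div_cancel₀ _ (by norm_num : (2 : ℝ) ≠ 0)]; ring
    rw [h11, ENNReal.ofReal_add (by positivity) (by positivity)] at h10
    have h12 := h10.trans (add_le_add (le_refl _) h1)
    exact (ENNReal.add_le_add_iff_right ENNReal.ofReal_ne_top).1 h12
  obtain ⟨F, hF1, hF2, I, hI, hFI, hF3⟩ := geom_step n r hn1 x R ρ q hR hRc hq0 hqρ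
    (by rw [hρ]; linarith) Z hZρ (fun L p => Y ^ (m - ε) ≤ ht p ∧ (ht p : ℝ) ≤ Y ^ (m + ε)) hvol
  have hN : 4 * (R / q) ^ s ≤ F.card := by
    rw [hFI]
    have hpow : ρ ^ (r - 1) / ρ ^ n * (q ^ s / q ^ (r - 1)) = Y ^ χ := by
      rw [← Real.rpow_natCast ρ (r - 1), ← Real.rpow_natCast ρ n, ← Real.rpow_natCast q (r - 1), ← hd,
        hρ, hq, ← Real.rpow_mul hY0.le, ← Real.rpow_mul hY0.le, ← Real.rpow_mul hY0.le,
        ← Real.rpow_mul hY0.le, ← Real.rpow_sub hY0, ← Real.rpow_sub hY0, ← Real.rpow_add hY0]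
      congr 1
      rw [hχ, hΔ, hT, ha, hb, ← hdm]
      ring
    have h9 := num_children n r hr1 R ρ q s χ Y Z c hR hρ0 hq0 hZ2 hpow hc (by
      have : c * c⁻¹ < c * Y ^ χ := by gcongr
      rw [mul_inv_cancel₀ hc0.ne'] at this
      exact this.le)
    refine h9.trans ?_
    gcongr
  refine ⟨q, F, hq0, by rw [hq]; exact h2.le, fun y hy => ⟨hF1 y hy, ?_⟩, hN, ?_⟩
  · intro ξ hξ
    obtain ⟨L, p, hp, ⟨hp1, hp2⟩, P, hP, hP0, hPy⟩ := hF2 y hy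
    have hht : (0 : ℝ) < ht p := by exact_mod_cast hp.ht_pos
    refine ⟨L, p, hp, ?_, P, hP, hP0, fun i => ?_⟩
    · have : (j : ℝ) ≤ ht p := h4.le.trans hp1
      exact_mod_cast this
    · rw [hPy]
      have h9 : dist (ξ i) (y i) ≤ q := (dist_le_pi_dist ξ y i).trans hξ
      rw [Real.dist_eq, abs_sub_comm] at h9
      refine h9.trans ?_
      calc q = (Y ^ (m + ε)) ^ (-v) := by rw [hq, hb, ← Real.rpow_mul hY0.le]; congr 1; ring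
        _ ≤ (ht p : ℝ) ^ (-v) := Real.rpow_le_rpow_of_nonpos hht hp2 (by linarith)
  · intro U u hu hU G hG hGU
    obtain ⟨g1, g2, g3⟩ := hF3 U u hu hU G hG hGU
    refine ⟨g1, fun hqu huR => ?_⟩
    rcases lt_or_ge u ρ with h | h
    · exact (g2 hqu h).trans (count_mid n r (by omega) R q s u F.card hR hq0 hqu (by rw [← hd]; exact hs1) hN)
    · exact (g3 h).trans (count_big n r R ρ s u F.card I Z hR hρ0 hu huR hsn (Nat.cast_nonneg _) hI hFI)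


end Pool.Agent.Y30.IE
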